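import Pool.Agent.H220M.Base4

/-!
Counting a periodic condition in a box.
-/

set_option autoImplicit false

namespace Pool.Agent.W941.LQ

open Pool.Agent.H220M
open Finset Polynomial

theorem tM3 : StmM3 := by
  classical
  intro k M x hM P hdec hP
  have h1 : ((Fintype.piFinset (fun _ : Fin k => range x)).filter P).card ≤
      ((Fintype.piFinset (fun _ : Fin k => range (x / M + 1))) ×ˢ
        ((Fintype.piFinset (fun _ : Fin k => range M)).filter P)).card := by
    apply Finset.card_le_card_of_injOn (fun τ => (fun i => τ i / M, fun i => τ i % M))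
    · intro τ hτ
      rw [Finset.mem_coe, Finset.mem_filter, Fintype.mem_piFinset] at hτ
      rw [Finset.mem_coe, Finset.mem_product, Fintype.mem_piFinset, Finset.mem_filter,
        Fintype.mem_piFinset]
      refine ⟨fun i => ?_, fun i => ?_, ?_⟩
      · have := Finset.mem_range.1 (hτ.1 i)
        rw [Finset.mem_range]
        exact Nat.lt_succ_of_le (Nat.div_le_div_right this.le)
      · rw [Finset.mem_range]
        exact Nat.mod_lt _ hM
      · exact (hP τ (fun i => τ i % M) (fun i => (Nat.mod_modEq _ _).symm)).1 hτ.2
    · intro τ _ τ' _ h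
      rw [Prod.mk.injEq] at h
      funext i
      have a1 : τ i / M = τ' i / M := congrFun h.1 i
      have a2 : τ i % M = τ' i % M := congrFun h.2 i
      rw [← Nat.div_add_mod (τ i) M, ← Nat.div_add_mod (τ' i) M, a1, a2]
  rw [Finset.card_product, Fintype.card_piFinset, Finset.prod_const, Finset.card_univ,
    Fintype.card_fin, card_range] at h1
  exact h1

end Pool.Agent.W941.LQ
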