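import Pool.Agent.H220M.Base4

/-!
Exponential bound for the number of bad subsets.
-/

set_option autoImplicit false

namespace Pool.Agent.W941.LQ

open Pool.Agent.H220M
open Finset Polynomial

/-- divisibility of values is periodic -/
theorem dvd_iff {F : ℤ[X]} {c : ℤ} {a b : ℕ} (h : c ∣ (a : ℤ) - b) :
    c ∣ F.eval ((a : ℤ) + 1) ↔ c ∣ F.eval ((b : ℤ) + 1) := by
  have h1 : c ∣ F.eval ((a : ℤ) + 1) - F.eval ((b : ℤ) + 1) := by
    refine dvd_trans ?_ (Polynomial.sub_dvd_eval_sub ((a : ℤ) + 1) ((b : ℤ) + 1) F)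
    have : (a : ℤ) + 1 - ((b : ℤ) + 1) = a - b := by ring
    rw [this]
    exact h
  constructor
  · intro h2
    have := dvd_sub h2 h1
    simpa using this
  · intro h2
    have := dvd_add h1 h2
    simpa using this

theorem one_congr {k : ℕ} (F : ℤ[X]) (q : ℕ) (τ τ' : Fin k → ℕ)
    (h : ∀ i, τ i ≡ τ' i [MOD q ^ 2]) : one F q τ ↔ one F q τ' := by
  have h1 : ∀ i, ((q : ℤ) ^ 2) ∣ (τ i : ℤ) - τ' i := by
    intro i
    have := (Nat.modEq_iff_dvd.1 (h i).symm)
    push_cast at this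
    exact this
  have h2 : ∀ i, (q : ℤ) ∣ (τ i : ℤ) - τ' i := fun i =>
    dvd_trans (dvd_pow_self _ two_ne_zero) (h1 i)
  unfold one
  constructor
  · rintro ⟨i, ⟨a1, a2⟩, a3⟩
    exact ⟨i, ⟨(dvd_iff (h2 i)).1 a1, fun h => a2 ((dvd_iff (h1 i)).2 h)⟩,
      fun i' hi' h => a3 i' hi' ((dvd_iff (h2 i')).2 h)⟩
  · rintro ⟨i, ⟨a1, a2⟩, a3⟩
    exact ⟨i, ⟨(dvd_iff (h2 i)).2 a1, fun h => a2 ((dvd_iff (h1 i)).1 h)⟩,
      fun i' hi' h => a3 i' hi' ((dvd_iff (h2 i')).1 h)⟩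

theorem not_one_of_even {k : ℕ} (F : ℤ[X]) {q : ℕ} (hq : q.Prime) (τ : Fin k → ℕ)
    (h : Even (∑ i, (F.eval ((τ i : ℤ) + 1)).natAbs.factorization q)) : ¬ one F q τ := by
  rintro ⟨i, ⟨h1, h2⟩, h3⟩
  have hi : (F.eval ((τ i : ℤ) + 1)).natAbs.factorization q = 1 := by
    have hne : (F.eval ((τ i : ℤ) + 1)).natAbs ≠ 0 := by
      intro h0
      rw [Int.natAbs_eq_zero] at h0
      rw [h0] at h2
      exact h2 (dvd_zero _)
    have b1 : 1 ≤ (F.eval ((τ i : ℤ) + 1)).natAbs.factorization q :=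
      (hq.dvd_iff_one_le_factorization hne).1 (Int.natCast_dvd.1 h1)
    have b2 : ¬ 2 ≤ (F.eval ((τ i : ℤ) + 1)).natAbs.factorization q := by
      intro h5
      have h6 := (hq.pow_dvd_iff_le_factorization hne).2 h5
      apply h2
      have := Int.natCast_dvd.2 h6
      push_cast at this
      exact this
    omega
  have hsum : ∑ i, (F.eval ((τ i : ℤ) + 1)).natAbs.factorization q = 1 := by
    rw [Finset.sum_eq_single i, hi]
    · intro i' _ hi'
      apply Nat.factorization_eq_zero_of_not_dvd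
      intro hd
      exact h3 i' hi' (Int.natCast_dvd.2 hd)
    · intro h
      exact absurd (Finset.mem_univ _) h
  rw [hsum] at h
  exact absurd h (by decide)

theorem cast_flipU (S : Finset ℕ) (n : ℕ) :
    (((flipU S n : ℤˣ) : ℤ) : ℝ) = ∏ q ∈ S, (-1 : ℝ) ^ (n.factorization q) := by
  unfold flipU
  push_cast
  rfl

theorem tM5 (hM1 : StmM1) (hM2 : StmM2) (hM3 : StmM3) (hM4 : StmM4) : StmM5 := by
  classical
  intro F η s Q hη hs hQ hSg x hx G hG hdec
  obtain ⟨M, hM⟩ : ∃ M, M = ∏ q ∈ Q, q ^ 2 := ⟨_, rfl⟩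
  rw [← hM] at hx
  have hM0 : 0 < M := by
    rw [hM]
    exact Finset.prod_pos (fun q hq => pow_pos (hQ q hq).1.pos 2)
  have hx0 : 0 < x := lt_of_lt_of_le hM0 hx
  have hxR : (0 : ℝ) < x := by exact_mod_cast hx0
  have hMR : (0 : ℝ) < M := by exact_mod_cast hM0
  obtain ⟨V, hV⟩ : ∃ V : ℕ → ℕ → ℕ, V = fun (q m : ℕ) =>
    (F.eval ((m : ℤ) + 1)).natAbs.factorization q := ⟨_, rfl⟩
  obtain ⟨A, hA⟩ : ∃ A : Finset ℕ → ℝ, A = fun S => ∑ m ∈ range x, G m *
    ∏ q ∈ S, (-1 : ℝ) ^ (V q m) := ⟨_, rfl⟩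
  have hAS : ∀ S : Finset ℕ, ∑ m ∈ range x, G m *
      (((flipU S ((F.eval ((m : ℤ) + 1)).natAbs) : ℤˣ) : ℤ) : ℝ) = A S := by
    intro S
    rw [hA]
    refine Finset.sum_congr rfl fun m _ => ?_
    rw [cast_flipU, hV]
  -- the moment
  have m1 := hM1 Q x (2 * s) G hG V
  -- the count
  have m2 : ((Fintype.piFinset (fun _ : Fin (2 * s) => range x)).filter
      (fun τ => ∀ q ∈ Q, Even (∑ i, V q (τ i)))).card ≤
      ((Fintype.piFinset (fun _ : Fin (2 * s) => range x)).filter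
      (fun τ => ∀ q ∈ Q, ¬ one F q τ)).card := by
    apply Finset.card_le_card
    intro τ hτ
    rw [Finset.mem_filter] at hτ ⊢
    refine ⟨hτ.1, fun q hq => ?_⟩
    apply not_one_of_even F (hQ q hq).1
    have := hτ.2 q hq
    rw [hV] at this
    exact this
  have m3 := hM3 (2 * s) M x hM0 (fun τ => ∀ q ∈ Q, ¬ one F q τ) (by
    intro τ τ' hττ
    constructor
    · intro h q hq h1
      refine h q hq ((one_congr F q τ τ' (fun i => (hττ i).of_dvd ?_)).2 h1)
      rw [hM]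
      exact Finset.dvd_prod_of_mem (fun q => q ^ 2) hq
    · intro h q hq h1
      refine h q hq ((one_congr F q τ τ' (fun i => (hττ i).of_dvd ?_)).1 h1)
      rw [hM]
      exact Finset.dvd_prod_of_mem (fun q => q ^ 2) hq)
  have m4 := hM2 (2 * s) Q (fun q hq => (hQ q hq).1) (fun q τ => ¬ one F q τ) (by
    intro q _ τ τ' hττ
    exact not_congr (one_congr F q τ τ' hττ))
  have m5 : ∀ q ∈ Q, (((Fintype.piFinset (fun _ : Fin (2 * s) => range (q ^ 2))).filter
        (fun τ => ¬ one F q τ)).card : ℝ)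
      ≤ ((q : ℝ) ^ 2) ^ (2 * s) * Real.exp (-(s / 2 * (1 / (q : ℝ)))) := by
    intro q hq
    obtain ⟨h1, h2, h3⟩ := hQ q hq
    have h4 := hM4 F q s h1 h2 hs h3 (fun _ => inferInstance)
    have h5 : ((Fintype.piFinset (fun _ : Fin (2 * s) => range (q ^ 2))).filter
        (fun τ => ¬ one F q τ)).card = ((Fintype.piFinset (fun _ : Fin (2 * s) =>
          range (q ^ 2))).filter (fun τ => ¬ one F q τ)).card := rfl
    refine le_trans h4 ?_
    apply mul_le_mul_of_nonneg_left _ (by positivity)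
    have h6 := Real.add_one_le_exp (-(s / 2 * (1 / (q : ℝ))))
    have h7 : (s : ℝ) / (2 * q) = s / 2 * (1 / (q : ℝ)) := by
      rw [div_mul_div_comm, mul_one]
    rw [h7]
    linarith
  have m6 : (((Fintype.piFinset (fun _ : Fin (2 * s) => range M)).filter
        (fun τ => ∀ q ∈ Q, ¬ one F q τ)).card : ℝ) ≤
      (M : ℝ) ^ (2 * s) * Real.exp (-(s / 2 * ∑ q ∈ Q, (1 : ℝ) / q)) := by
    rw [hM]
    rw [m4]
    push_cast
    calc ∏ q ∈ Q, (((Fintype.piFinset (fun _ : Fin (2 * s) => range (q ^ 2))).filter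
        (fun τ => ¬ one F q τ)).card : ℝ)
        ≤ ∏ q ∈ Q, (((q : ℝ) ^ 2) ^ (2 * s) * Real.exp (-(s / 2 * (1 / (q : ℝ))))) :=
          Finset.prod_le_prod (fun q _ => Nat.cast_nonneg _) m5
      _ = (∏ q ∈ Q, ((q : ℝ) ^ 2)) ^ (2 * s) * Real.exp (-(s / 2 * ∑ q ∈ Q, (1 : ℝ) / q)) := by
          rw [Finset.prod_mul_distrib, Finset.prod_pow, ← Real.exp_sum]
          congr 2
          rw [Finset.sum_neg_distrib, Finset.mul_sum]
  have m7 : (((x / M : ℕ) : ℝ) + 1) * M ≤ 2 * x := by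
    have h1 : (x / M) * M ≤ x := Nat.div_mul_le_self x M
    have h2 : (((x / M : ℕ) : ℝ)) * M ≤ x := by exact_mod_cast h1
    have h3 : (M : ℝ) ≤ x := by exact_mod_cast hx
    linarith
  obtain ⟨E, hE⟩ : ∃ E, E = Real.exp (-(s / 2 * ∑ q ∈ Q, (1 : ℝ) / q)) := ⟨_, rfl⟩
  have hE0 : 0 < E := by rw [hE]; exact Real.exp_pos _
  rw [← hE] at m6
  have m8 : ∑ S ∈ Q.powerset, (A S) ^ (2 * s) ≤ 2 ^ Q.card * ((2 * x) ^ (2 * s) * E) := by
    have h1 : (((Fintype.piFinset (fun _ : Fin (2 * s) => range x)).filter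
      (fun τ => ∀ q ∈ Q, Even (∑ i, V q (τ i)))).card : ℝ) ≤ (2 * x) ^ (2 * s) * E := by
      calc (((Fintype.piFinset (fun _ : Fin (2 * s) => range x)).filter
            (fun τ => ∀ q ∈ Q, Even (∑ i, V q (τ i)))).card : ℝ)
          ≤ (((x / M + 1) ^ (2 * s) * ((Fintype.piFinset (fun _ : Fin (2 * s) =>
              range M)).filter (fun τ => ∀ q ∈ Q, ¬ one F q τ)).card : ℕ) : ℝ) := by
            exact_mod_cast m2.trans m3
        _ = (((x / M : ℕ) : ℝ) + 1) ^ (2 * s) * (((Fintype.piFinset (fun _ : Fin (2 * s) =>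
              range M)).filter (fun τ => ∀ q ∈ Q, ¬ one F q τ)).card : ℝ) := by
            push_cast
            rfl
        _ ≤ (((x / M : ℕ) : ℝ) + 1) ^ (2 * s) * ((M : ℝ) ^ (2 * s) * E) :=
            mul_le_mul_of_nonneg_left m6 (by positivity)
        _ = ((((x / M : ℕ) : ℝ) + 1) * M) ^ (2 * s) * E := by rw [mul_pow]; ring
        _ ≤ (2 * x) ^ (2 * s) * E := by
            apply mul_le_mul_of_nonneg_right _ hE0.le
            exact pow_le_pow_left₀ (by positivity) m7 _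
    have h2 : ∑ S ∈ Q.powerset, (A S) ^ (2 * s) ≤ 2 ^ Q.card *
        (((Fintype.piFinset (fun _ : Fin (2 * s) => range x)).filter
      (fun τ => ∀ q ∈ Q, Even (∑ i, V q (τ i)))).card : ℝ) := by
      rw [hA]
      exact m1
    exact h2.trans (mul_le_mul_of_nonneg_left h1 (by positivity))
  -- Markov
  obtain ⟨B, hB⟩ : ∃ B, B = Q.powerset.filter (fun S => η * x < |A S|) := ⟨_, rfl⟩
  have m9 : (B.card : ℝ) * (η * x) ^ (2 * s) ≤ ∑ S ∈ Q.powerset, (A S) ^ (2 * s) := by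
    calc (B.card : ℝ) * (η * x) ^ (2 * s) = ∑ S ∈ B, (η * x) ^ (2 * s) := by
          rw [Finset.sum_const, nsmul_eq_mul]
      _ ≤ ∑ S ∈ B, (A S) ^ (2 * s) := by
          refine Finset.sum_le_sum fun S hS => ?_
          rw [hB, Finset.mem_filter] at hS
          have h1 : |A S| ^ (2 * s) = (A S) ^ (2 * s) := by
            rw [pow_mul, sq_abs, ← pow_mul]
          rw [← h1]
          exact pow_le_pow_left₀ (by positivity) hS.2.le _
      _ ≤ ∑ S ∈ Q.powerset, (A S) ^ (2 * s) := by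
          apply Finset.sum_le_sum_of_subset_of_nonneg
          · rw [hB]; exact Finset.filter_subset _ _
          · intro S _ _
            rw [pow_mul]
            positivity
  have hcard : ((Q.powerset.filter (fun S => η * x <
        |∑ m ∈ range x, G m *
          (((flipU S ((F.eval ((m : ℤ) + 1)).natAbs) : ℤˣ) : ℤ) : ℝ)|)).card : ℝ) = B.card := by
    rw [hB]
    congr 2
    ext S
    simp only [Finset.mem_filter, hAS S]
  rw [hcard]
  have hpos : (0 : ℝ) < (η * x) ^ (2 * s) := by positivity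
  have m10 : (B.card : ℝ) * (η * x) ^ (2 * s) ≤
      Real.exp (-(s : ℝ)) * 2 ^ Q.card * (η * x) ^ (2 * s) := by
    refine (m9.trans m8).trans ?_
    have h1 : (2 * (x : ℝ)) ^ (2 * s) = (2 / η) ^ (2 * s) * (η * x) ^ (2 * s) := by
      rw [← mul_pow]
      congr 1
      field_simp
    have h2 : (2 / η) ^ (2 * s) = Real.exp ((2 * s : ℕ) * Real.log (2 / η)) := by
      rw [Real.exp_nat_mul, Real.exp_log (by positivity)]
    have h3 : (2 / η) ^ (2 * s) * E ≤ Real.exp (-(s : ℝ)) := by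
      rw [h2, hE, ← Real.exp_add]
      apply Real.exp_le_exp.2
      push_cast
      have hs' : (0 : ℝ) ≤ s := Nat.cast_nonneg _
      nlinarith [mul_le_mul_of_nonneg_left hSg hs']
    calc 2 ^ Q.card * ((2 * (x : ℝ)) ^ (2 * s) * E)
        = ((2 / η) ^ (2 * s) * E) * (2 ^ Q.card * (η * x) ^ (2 * s)) := by rw [h1]; ring
      _ ≤ Real.exp (-(s : ℝ)) * (2 ^ Q.card * (η * x) ^ (2 * s)) :=
          mul_le_mul_of_nonneg_right h3 (by positivity)
      _ = Real.exp (-(s : ℝ)) * 2 ^ Q.card * (η * x) ^ (2 * s) := by ring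
  exact le_of_mul_le_mul_right m10 hpos

end Pool.Agent.W941.LQ
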